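import Pool.Agent.Y585.FK.Rad

set_option autoImplicit false

open Finset MeasureTheory Filter Topology

open scoped Classical

namespace Pool.Agent.Y585.FK

open Pool.Agent.Y755.FK

noncomputable section

/-! ### the coefficients -/

theorem J_mul_right (a : ℤ) {b c : ℕ} (hb : b ≠ 0) (hc : c ≠ 0) : J a (b * c) = J a b * J a c := by
  unfold J; rw [jacobiSym.mul_right' a hb hc]; push_cast; ring

theorem gD_abs_le (D : ℤ) (k : ℕ) : |gD D k| ≤ 1 := by
  unfold gD
  rw [abs_mul]
  exact mul_le_one₀ (gk_abs_le k) (abs_nonneg _) (J_abs_le _ _)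

theorem gD_mul (D : ℤ) {a b : ℕ} (h : Nat.Coprime a b) (ha : a ≠ 0) (hb : b ≠ 0) :
    gD D (a * b) = gD D a * gD D b := by
  unfold gD
  rw [gk_mul h ha hb, rad_mul h, J_mul_right D (rad_ne_zero a) (rad_ne_zero b)]
  ring

theorem gD_one (D : ℤ) : gD D 1 = 1 := by
  simp [gD, gk, om, rad, J]

theorem gk_prime_pow {p : ℕ} (hp : p.Prime) (hp2 : p ≠ 2) (e : ℕ) :
    gk (p ^ (e + 1)) = 1 / 2 * (-1 / 2) ^ e := by
  have ho : Odd (p ^ (e + 1)) := (hp.odd_of_ne_two hp2).pow
  have h1 : om (p ^ (e + 1)) = 1 := by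
    unfold om; rw [Nat.primeFactors_prime_pow (by omega) hp, Finset.card_singleton]
  have h2 : (p ^ (e + 1)).primeFactorsList.length = e + 1 := by
    rw [hp.primeFactorsList_pow, List.length_replicate]
  unfold gk
  rw [if_pos ho, h1, h2, Nat.add_sub_cancel, pow_one]

theorem rad_prime_pow {p : ℕ} (hp : p.Prime) (e : ℕ) : rad (p ^ (e + 1)) = p := by
  unfold rad; rw [Nat.primeFactors_prime_pow (by omega) hp, Finset.prod_singleton]

/-! ### the local factors -/

/-- the local factor minus one -/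
def wv (t : ℝ) (w : ℂ) : ℂ := (1 + t * w / (2 + w)) ^ 2 * (1 - t * w) - 1

theorem two_add_ne {w : ℂ} (hw : ‖w‖ < 1) : (2 + w) ≠ 0 := by
  intro h
  have : w = -2 := by linear_combination h
  rw [this] at hw
  norm_num at hw

theorem one_le_norm_two_add {w : ℂ} (hw : ‖w‖ ≤ 1) : 1 ≤ ‖2 + w‖ := by
  have h1 : ‖(2 : ℂ)‖ ≤ ‖2 + w‖ + ‖w‖ := by
    have := norm_sub_le (2 + w) w
    simpa using this
  rw [Complex.norm_ofNat] at h1
  linarith

theorem wv_bound {t : ℝ} (ht : |t| ≤ 1) {w : ℂ} (hw : ‖w‖ < 1) :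
    ‖wv t w‖ ≤ 5 * ‖w‖ ^ 2 := by
  have hne := two_add_ne hw
  have h1 := one_le_norm_two_add hw.le
  have key : wv t w = w ^ 2 * (-(t : ℂ) ^ 2 +
      (-(t : ℂ) / (2 + w) + (t : ℂ) ^ 2 / (2 + w) ^ 2) * (1 - t * w)) := by
    unfold wv
    field_simp
    ring
  have htn : ‖(t : ℂ)‖ ≤ 1 := by rw [Complex.norm_real]; exact ht
  have hinv : ‖(2 + w)‖⁻¹ ≤ 1 := inv_le_one_of_one_le₀ h1
  have a1 : ‖-(t : ℂ) / (2 + w)‖ ≤ 1 := by
    rw [norm_div, norm_neg, div_eq_mul_inv]
    exact mul_le_one₀ htn (by positivity) hinv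
  have a2 : ‖(t : ℂ) ^ 2 / (2 + w) ^ 2‖ ≤ 1 := by
    rw [← div_pow, norm_pow]
    apply pow_le_one₀ (norm_nonneg _)
    rw [norm_div, div_eq_mul_inv]
    exact mul_le_one₀ htn (by positivity) hinv
  have a3 : ‖(1 : ℂ) - t * w‖ ≤ 2 := by
    have := norm_sub_le (1 : ℂ) (t * w)
    rw [norm_one, norm_mul] at this
    have h4 : ‖(t : ℂ)‖ * ‖w‖ ≤ 1 := mul_le_one₀ htn (norm_nonneg _) hw.le
    linarith
  have a4 : ‖(-(t : ℂ) / (2 + w) + (t : ℂ) ^ 2 / (2 + w) ^ 2) * (1 - t * w)‖ ≤ 2 * 2 := by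
    rw [norm_mul]
    apply mul_le_mul _ a3 (norm_nonneg _) (by norm_num)
    exact (norm_add_le _ _).trans (by linarith)
  have a5 : ‖-(t : ℂ) ^ 2‖ ≤ 1 := by
    rw [norm_neg, norm_pow]
    exact pow_le_one₀ (norm_nonneg _) htn
  rw [key, norm_mul, norm_pow, mul_comm]
  apply mul_le_mul_of_nonneg_right _ (by positivity)
  exact (norm_add_le _ _).trans (by linarith)

theorem wv_ne {t : ℝ} (ht : |t| ≤ 1) {w : ℂ} (hw : ‖w‖ < 1) : 1 + wv t w ≠ 0 := by
  have htn : ‖(t : ℂ)‖ ≤ 1 := by rw [Complex.norm_real]; exact ht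
  have htw : ‖(t : ℂ) * w‖ < 1 := by
    rw [norm_mul]
    calc ‖(t : ℂ)‖ * ‖w‖ ≤ 1 * ‖w‖ := mul_le_mul_of_nonneg_right htn (norm_nonneg _)
      _ < 1 := by rw [one_mul]; exact hw
  unfold wv
  rw [add_sub_cancel]
  have hne := two_add_ne hw
  apply mul_ne_zero
  · apply pow_ne_zero
    intro h
    have h2 : 2 + w + t * w = 0 := by
      have h3 : (1 + t * w / (2 + w)) * (2 + w) = 0 := by rw [h, zero_mul]
      rw [add_mul, div_mul_cancel₀ _ hne, one_mul] at h3
      exact h3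
    have h4 : (2 : ℂ) = -(w + t * w) := by linear_combination h2
    have h5 : ‖(2 : ℂ)‖ ≤ ‖w‖ + ‖(t : ℂ) * w‖ := by
      rw [h4, norm_neg]; exact norm_add_le _ _
    rw [Complex.norm_ofNat] at h5
    linarith
  · intro h
    have h2 : (t : ℂ) * w = 1 := by linear_combination -h
    rw [h2, norm_one] at htw
    exact lt_irrefl _ htw

theorem norm_cpow_neg {p : ℕ} (hp : p.Prime) (s : ℂ) :
    ‖(p : ℂ) ^ (-s)‖ = (p : ℝ) ^ (-s.re) := by
  rw [Complex.norm_natCast_cpow_of_pos hp.pos, Complex.neg_re]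

theorem norm_cpow_lt {p : ℕ} (hp : p.Prime) {s : ℂ} (hs : 0 < s.re) : ‖(p : ℂ) ^ (-s)‖ < 1 := by
  rw [norm_cpow_neg hp]
  exact Real.rpow_lt_one_of_one_lt_of_neg (by exact_mod_cast hp.one_lt) (by linarith)

/-- the local factor minus one at `p` -/
def vp (D : ℤ) (p : ℕ) (s : ℂ) : ℂ := if p = 2 then 0 else wv (J D p) ((p : ℂ) ^ (-s))

theorem vp_props (D : ℤ) (p : ℕ) (hp : p.Prime) (s : ℂ) (hs : 3 / 4 < s.re) :
    DifferentiableAt ℂ (vp D p) s ∧ ‖vp D p s‖ ≤ 5 * (p : ℝ) ^ (-(3 / 2) : ℝ) ∧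
      1 + vp D p s ≠ 0 := by
  by_cases h2 : p = 2
  · have h0 : vp D p = fun _ => 0 := by ext z; simp [vp, h2]
    rw [h0]
    refine ⟨differentiableAt_const _, ?_, by simp⟩
    rw [norm_zero]; positivity
  · have hf : vp D p = fun z => wv (J D p) ((p : ℂ) ^ (-z)) := by
      ext z; simp [vp, h2]
    have hw := norm_cpow_lt hp (s := s) (by linarith)
    rw [hf]
    refine ⟨?_, ?_, wv_ne (J_abs_le D p) hw⟩
    · have hp0 : (p : ℂ) ≠ 0 := by exact_mod_cast hp.ne_zero
      have hd : DifferentiableAt ℂ (fun z : ℂ => (p : ℂ) ^ (-z)) s :=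
        (differentiableAt_id.neg).const_cpow (Or.inl hp0)
      have hne := two_add_ne hw
      unfold wv
      exact ((((hd.const_mul _).div (hd.const_add _) hne).const_add _).pow 2 |>.mul
        ((hd.const_mul _).const_sub _)).sub_const _
    · refine (wv_bound (J_abs_le D p) hw).trans ?_
      apply mul_le_mul_of_nonneg_left _ (by norm_num)
      rw [norm_cpow_neg hp, ← Real.rpow_natCast, ← Real.rpow_mul (Nat.cast_nonneg p)]
      apply Real.rpow_le_rpow_of_exponent_le (by exact_mod_cast hp.one_lt.le)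
      push_cast
      linarith

/-! ### Dirichlet series -/

theorem gD_summable (D : ℤ) {s : ℂ} (hs : 1 < s.re) :
    LSeriesSummable (fun k => (gD D k : ℂ)) s :=
  LSeriesSummable_of_bounded_of_one_lt_re (m := 1)
    (fun n _ => by rw [Complex.norm_real]; exact gD_abs_le D n) hs

theorem gD_local (D : ℤ) {p : ℕ} (hp : p.Prime) {s : ℂ} (hs : 1 < s.re) :
    ∑' e, LSeries.term (fun k => (gD D k : ℂ)) s (p ^ e)
      = if p = 2 then 1 else 1 + (J D p : ℂ) * (p : ℂ) ^ (-s) / (2 + (p : ℂ) ^ (-s)) := by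
  have hp0 : (p : ℂ) ≠ 0 := by exact_mod_cast hp.ne_zero
  have hterm : ∀ e, LSeries.term (fun k => (gD D k : ℂ)) s (p ^ e)
      = (gD D (p ^ e) : ℂ) * ((p : ℂ) ^ (-s)) ^ e := by
    intro e
    rw [LSeries.term_of_ne_zero (pow_ne_zero e hp.ne_zero), div_eq_mul_inv]
    congr 1
    rw [← Complex.cpow_nat_mul, Nat.cast_pow, ← Complex.natCast_cpow_natCast_mul,
      ← Complex.cpow_neg]
    congr 1
    ring
  simp only [hterm]
  split_ifs with h2
  · rw [tsum_eq_single 0]
    · simp [gD_one]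
    · intro e he
      have : ¬ Odd (p ^ e) := by
        rw [h2, Nat.not_odd_iff_even]
        exact (even_two).pow_of_ne_zero he
      unfold gD
      rw [gk_even this]
      simp
  · set w : ℂ := (p : ℂ) ^ (-s) with hw
    have hwn : ‖w‖ < 1 := norm_cpow_lt hp (by linarith)
    have hgeo : HasSum (fun e : ℕ => (J D p : ℂ) * w / 2 * (-w / 2) ^ e)
        ((J D p : ℂ) * w / 2 * (1 - (-w / 2))⁻¹) := by
      apply HasSum.mul_left
      apply hasSum_geometric_of_norm_lt_one
      rw [norm_div, norm_neg, Complex.norm_ofNat]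
      linarith [norm_nonneg w]
    have hsum : HasSum (fun e : ℕ => (gD D (p ^ (e + 1)) : ℂ) * w ^ (e + 1))
        ((J D p : ℂ) * w / 2 * (1 - (-w / 2))⁻¹) := by
      convert hgeo using 2 with e
      unfold gD
      rw [gk_prime_pow hp h2, rad_prime_pow hp]
      push_cast
      rw [pow_succ, div_pow, div_pow, neg_pow w e]
      ring
    have h0 := (hasSum_nat_add_iff (f := fun e : ℕ => (gD D (p ^ e) : ℂ) * w ^ e) 1).1 hsum
    rw [h0.tsum_eq]
    simp only [Finset.range_one, Finset.sum_singleton, pow_zero, gD_one, mul_one,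
      Complex.ofReal_one]
    rw [show (1 - (-w / 2)) = (2 + w) / 2 by ring, inv_div]
    ring

theorem gD_hasProd (D : ℤ) {s : ℂ} (hs : 1 < s.re) :
    HasProd (fun p : Nat.Primes => if (p : ℕ) = 2 then (1 : ℂ) else
      1 + (J D p : ℂ) * (p : ℂ) ^ (-s) / (2 + (p : ℂ) ^ (-s)))
      (LSeries (fun k => (gD D k : ℂ)) s) := by
  have h := EulerProduct.eulerProduct_hasProd (f := LSeries.term (fun k => (gD D k : ℂ)) s)
    (by rw [LSeries.term_of_ne_zero one_ne_zero]; simp [gD_one])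
    (by
      intro m n hmn
      by_cases hm : m = 0
      · subst hm; simp
      · by_cases hn : n = 0
        · subst hn; simp
        · rw [LSeries.term_of_ne_zero (mul_ne_zero hm hn), LSeries.term_of_ne_zero hm,
            LSeries.term_of_ne_zero hn, gD_mul D hmn hm hn, Nat.cast_mul,
            Complex.natCast_mul_natCast_cpow]
          push_cast
          rw [mul_div_mul_comm])
    (gD_summable D hs).norm (LSeries.term_zero _ _)
  have heq : (fun p : Nat.Primes => ∑' e, LSeries.term (fun k => (gD D k : ℂ)) s ((p : ℕ) ^ e))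
      = (fun p : Nat.Primes => if (p : ℕ) = 2 then (1 : ℂ) else
      1 + (J D p : ℂ) * (p : ℂ) ^ (-s) / (2 + (p : ℂ) ^ (-s))) := by
    ext p
    exact gD_local D p.2 hs
  rw [heq] at h
  exact h

theorem t_EW : S_EP → S_EW := by
  intro hEP
  obtain ⟨C, hC⟩ := hEP 5
  refine ⟨C, fun D hD => ⟨fun s => ∏' p : Nat.Primes, (1 + vp D p s), ?_, ?_, ?_⟩⟩
  · intro s hs
    have := hC (vp D) (fun p hp z hz => vp_props D p hp z hz) s hs
    exact ⟨this.2.1, this.2.2.1, this.2.2.2⟩
  · intro x hx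
    have h := hC (vp D) (fun p hp z hz => vp_props D p hp z hz) (x : ℂ)
      (by rw [Complex.ofReal_re]; exact hx)
    have hprod := h.1.hasProd
    -- all factors are nonnegative reals
    have hfac : ∀ p : Nat.Primes, ∃ r : ℝ, 0 ≤ r ∧ 1 + vp D p (x : ℂ) = r := by
      intro p
      unfold vp
      split_ifs with h2
      · exact ⟨1, zero_le_one, by simp⟩
      · have hpow : ((p : ℕ) : ℂ) ^ (-(x : ℂ)) = (((p : ℕ) : ℝ) ^ (-x) : ℝ) := by
          rw [Complex.ofReal_cpow (Nat.cast_nonneg _)]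
          push_cast
          rfl
        set w : ℝ := ((p : ℕ) : ℝ) ^ (-x) with hw
        have hw0 : 0 < w := Real.rpow_pos_of_pos (by exact_mod_cast p.2.pos) _
        have hw1 : w < 1 :=
          Real.rpow_lt_one_of_one_lt_of_neg (by exact_mod_cast p.2.one_lt) (by linarith)
        rw [hpow]
        unfold wv
        refine ⟨(1 + J D p * w / (2 + w)) ^ 2 * (1 - J D p * w), ?_, ?_⟩
        · apply mul_nonneg (sq_nonneg _)
          have h3 := abs_le.1 (J_abs_le D p)
          nlinarith [h3.1, h3.2]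
        · push_cast
          ring
    have hmem : ∀ S : Finset Nat.Primes, (∏ p ∈ S, (1 + vp D p (x : ℂ))) ∈
        {z : ℂ | 0 ≤ z.re ∧ z.im = 0} := by
      intro S
      induction S using Finset.induction_on with
      | empty => simp
      | insert a S ha ih =>
        rw [Finset.prod_insert ha]
        obtain ⟨r, hr, hre⟩ := hfac a
        rw [hre]
        obtain ⟨h1, h2⟩ := ih
        constructor
        · rw [Complex.re_ofReal_mul]; exact mul_nonneg hr h1
        · rw [Complex.im_ofReal_mul, h2, mul_zero]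
    have hclosed : IsClosed {z : ℂ | 0 ≤ z.re ∧ z.im = 0} :=
      (isClosed_le continuous_const Complex.continuous_re).inter
        (isClosed_eq Complex.continuous_im continuous_const)
    have hlim := hclosed.mem_of_tendsto hprod (Filter.Eventually.of_forall hmem)
    obtain ⟨h1, h2⟩ := hlim
    refine ⟨(∏' p : Nat.Primes, (1 + vp D p (x : ℂ))).re, ?_, ?_⟩
    · rcases h1.lt_or_eq with h3 | h3
      · exact h3
      · exfalso
        apply h.2.2.1
        exact Complex.ext h3.symm h2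
    · apply Complex.ext
      · rw [Complex.ofReal_re]
      · rw [Complex.ofReal_im]; exact h2
  · intro q _ χ hχ s hs
    refine ⟨gD_summable D hs, ?_⟩
    have h := hC (vp D) (fun p hp z hz => vp_props D p hp z hz) s (by linarith)
    have h1 := h.1.hasProd
    have h2 := DirichletCharacter.LSeries_eulerProduct_hasProd χ hs
    have h3 := gD_hasProd D hs
    have h4 := h3.mul h3
    have h5 := h2.mul h1
    rw [DirichletCharacter.LFunction_eq_LSeries χ hs, sq]
    refine HasProd.unique h4 ?_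
    convert h5 using 2 with p
    have hw := norm_cpow_lt p.2 (s := s) (by linarith)
    unfold vp
    split_ifs with hp2
    · have : χ ((p : ℕ) : ZMod q) = 0 := hχ.2 p (by rw [hp2]; exact even_two)
      rw [this]; simp
    · have hχp : χ ((p : ℕ) : ZMod q) = (J D p : ℂ) := hχ.1 p (p.2.odd_of_ne_two hp2)
      rw [hχp]
      unfold wv
      have hne : (1 : ℂ) - (J D p : ℂ) * ((p : ℕ) : ℂ) ^ (-s) ≠ 0 := by
        intro h0
        have h6 : (J D p : ℂ) * ((p : ℕ) : ℂ) ^ (-s) = 1 := by linear_combination -h0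
        have h7 : ‖(J D p : ℂ) * ((p : ℕ) : ℂ) ^ (-s)‖ < 1 := by
          rw [norm_mul]
          have htn : ‖(J D p : ℂ)‖ ≤ 1 := by rw [Complex.norm_real]; exact J_abs_le D p
          calc ‖(J D p : ℂ)‖ * ‖((p : ℕ) : ℂ) ^ (-s)‖ ≤ 1 * ‖((p : ℕ) : ℂ) ^ (-s)‖ :=
                mul_le_mul_of_nonneg_right htn (norm_nonneg _)
            _ < 1 := by rw [one_mul]; exact hw
        rw [h6, norm_one] at h7
        exact lt_irrefl _ h7
      rw [add_sub_cancel, mul_comm ((1 + (J D p : ℂ) * ((p : ℕ) : ℂ) ^ (-s) /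
        (2 + ((p : ℕ) : ℂ) ^ (-s))) ^ 2), ← mul_assoc, inv_mul_cancel₀ hne, one_mul, sq]

end

end Pool.Agent.Y585.FK
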