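import Pool.Agent.Y585.FK.Rad

set_option autoImplicit false

open Finset MeasureTheory Filter

open scoped Classical

namespace Pool.Agent.Y585.FK

open Pool.Agent.Y755.FK

noncomputable section

/-! ### the weight -/

theorem φ_nonneg (v : ℝ) : 0 ≤ φ v := by
  unfold φ; split_ifs <;> positivity

theorem φ_le_one (v : ℝ) : φ v ≤ 1 := by
  unfold φ
  split_ifs with h
  · have h1 : 0 ≤ v * (1 - v) := mul_nonneg h.1 (by linarith [h.2])
    have h2 : v * (1 - v) ≤ 1 := by nlinarith [h.1, h.2]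
    exact pow_le_one₀ h1 h2
  · norm_num

theorem φ_big {v : ℝ} (h : 1 ≤ v) : φ v = 0 := by
  unfold φ
  split_ifs with h'
  · have : v = 1 := le_antisymm h'.2 h
    rw [this]; norm_num
  · rfl

/-! ### the local weight is small -/

/-- `k ↦ k^(-2/3)` -/
def gh : ℕ →* ℝ where
  toFun k := (k : ℝ) ^ (-(2 / 3) : ℝ)
  map_one' := by simp
  map_mul' a b := by
    rw [Nat.cast_mul, Real.mul_rpow (Nat.cast_nonneg a) (Nat.cast_nonneg b)]

theorem gh_nonneg (k : ℕ) : 0 ≤ gh k := Real.rpow_nonneg (Nat.cast_nonneg k) _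

theorem gh_lt_one {p : ℕ} (hp : 2 ≤ p) : gh p < 1 := by
  change (p : ℝ) ^ (-(2 / 3) : ℝ) < 1
  apply Real.rpow_lt_one_of_one_lt_of_neg
  · exact_mod_cast hp
  · norm_num

theorem gh_le_half {p : ℕ} (hp : 3 ≤ p) : gh p ≤ 1 / 2 := by
  change (p : ℝ) ^ (-(2 / 3) : ℝ) ≤ 1 / 2
  have hp3 : (3 : ℝ) ≤ p := by exact_mod_cast hp
  have h1 : (p : ℝ) ^ (-(2 / 3) : ℝ) ≤ (3 : ℝ) ^ (-(2 / 3) : ℝ) :=
    Real.rpow_le_rpow_of_nonpos (by norm_num) hp3 (by norm_num)
  refine h1.trans ?_
  have h2 : (2 : ℝ) ≤ (3 : ℝ) ^ (2 / 3 : ℝ) := by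
    have h3 : (2 : ℝ) = (8 : ℝ) ^ (1 / 3 : ℝ) := by
      rw [show (8 : ℝ) = 2 ^ (3 : ℝ) by norm_num, ← Real.rpow_mul (by norm_num)]
      norm_num
    have h4 : (3 : ℝ) ^ (2 / 3 : ℝ) = (9 : ℝ) ^ (1 / 3 : ℝ) := by
      rw [show (9 : ℝ) = 3 ^ (2 : ℝ) by norm_num, ← Real.rpow_mul (by norm_num)]
      norm_num
    rw [h4]
    conv_lhs => rw [h3]
    exact Real.rpow_le_rpow (by norm_num) (by norm_num) (by norm_num)
  rw [Real.rpow_neg (by norm_num), one_div]
  exact inv_anti₀ (by norm_num) h2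

theorem sum_gh_le {n : ℕ} (hn : osf n) (N : ℕ) :
    ∑ k ∈ (Icc 1 N).filter (fun k => rad k = n), gh k ≤ 1 := by
  have hn0 : n ≠ 0 := hn.2.ne_zero
  have hE := EulerProduct.summable_and_hasSum_factoredNumbers_prod_filter_prime_geometric
    (f := gh) (fun {p} hp => by
      rw [Real.norm_of_nonneg (gh_nonneg p)]; exact gh_lt_one hp.two_le) n.primeFactors
  have hfp : (n.primeFactors.filter Nat.Prime) = n.primeFactors :=
    Finset.filter_true_of_mem fun p hp => Nat.prime_of_mem_primeFactors hp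
  rw [hfp] at hE
  have hS := hE.2
  have hind := (hasSum_subtype_iff_indicator (f := fun m : ℕ => gh m)
    (s := Nat.factoredNumbers n.primeFactors)).1 hS
  -- reindex
  have hk : ∀ k ∈ (Icc 1 N).filter (fun k => rad k = n), gh k = gh n * gh (k / n) := by
    intro k hk
    rw [Finset.mem_filter] at hk
    have : n ∣ k := hk.2 ▸ rad_dvd k
    rw [← map_mul, Nat.mul_div_cancel' this]
  rw [Finset.sum_congr rfl hk, ← Finset.mul_sum]
  have hinj : Set.InjOn (fun k : ℕ => k / n) ((Icc 1 N).filter (fun k => rad k = n)) := by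
    intro a ha b hb hab
    simp only [Finset.coe_filter, Set.mem_ofPred_eq] at ha hb
    have h1 : n ∣ a := ha.2 ▸ rad_dvd a
    have h2 : n ∣ b := hb.2 ▸ rad_dvd b
    have hab' : a / n = b / n := hab
    rw [← Nat.mul_div_cancel' h1, ← Nat.mul_div_cancel' h2, hab']
  have h3 : ∑ k ∈ (Icc 1 N).filter (fun k => rad k = n), gh (k / n)
      = ∑ m ∈ ((Icc 1 N).filter (fun k => rad k = n)).image (fun k => k / n), gh m := by
    rw [Finset.sum_image]
    intro a ha b hb hab
    exact hinj (by exact_mod_cast ha) (by exact_mod_cast hb) hab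
  have h4 : ∑ m ∈ ((Icc 1 N).filter (fun k => rad k = n)).image (fun k => k / n), gh m
      = ∑ m ∈ ((Icc 1 N).filter (fun k => rad k = n)).image (fun k => k / n),
        (Nat.factoredNumbers n.primeFactors).indicator (fun m => gh m) m := by
    apply Finset.sum_congr rfl
    intro m hm
    rw [Finset.mem_image] at hm
    obtain ⟨k, hk, rfl⟩ := hm
    rw [Finset.mem_filter, Finset.mem_Icc] at hk
    have hd : n ∣ k := hk.2 ▸ rad_dvd k
    have hk0 : k ≠ 0 := by omega
    have hkn : k / n ≠ 0 := by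
      intro h0
      have := Nat.mul_div_cancel' hd
      rw [h0, mul_zero] at this
      exact hk0 this.symm
    rw [Set.indicator_of_mem]
    apply Nat.mem_factoredNumbers_of_primeFactors_subset hkn
    have hm2 := Nat.primeFactors_mono (Nat.div_dvd_of_dvd hd) hk0
    rwa [← primeFactors_rad k, hk.2] at hm2
  have h5 : ∑ k ∈ (Icc 1 N).filter (fun k => rad k = n), gh (k / n)
      ≤ ∏ p ∈ n.primeFactors, (1 - gh p)⁻¹ := by
    rw [h3, h4]
    apply sum_le_hasSum _ _ hind
    intro m _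
    exact Set.indicator_nonneg (fun m _ => gh_nonneg m) m
  have h6 : gh n = ∏ p ∈ n.primeFactors, gh p := by
    conv_lhs => rw [← rad_of_squarefree hn.2]
    unfold rad
    rw [map_prod]
  calc gh n * ∑ k ∈ (Icc 1 N).filter (fun k => rad k = n), gh (k / n)
      ≤ gh n * ∏ p ∈ n.primeFactors, (1 - gh p)⁻¹ := mul_le_mul_of_nonneg_left h5 (gh_nonneg n)
    _ = ∏ p ∈ n.primeFactors, (gh p * (1 - gh p)⁻¹) := by
        rw [h6, Finset.prod_mul_distrib]
    _ ≤ 1 := by
        apply Finset.prod_le_one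
        · intro p hp
          have := gh_lt_one (Nat.prime_of_mem_primeFactors hp).two_le
          exact mul_nonneg (gh_nonneg p) (inv_nonneg.2 (by linarith))
        · intro p hp
          have hpp := Nat.prime_of_mem_primeFactors hp
          have hodd : Odd p := Odd.of_dvd_nat hn.1 (Nat.dvd_of_mem_primeFactors hp)
          have h3 : 3 ≤ p := by
            rcases hpp.eq_two_or_odd' with h | h
            · subst h; exact absurd hodd (by decide)
            · have := hpp.two_le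
              rcases h with ⟨j, hj⟩
              omega
          have h := gh_le_half h3
          rw [← div_eq_mul_inv, div_le_one (by linarith)]
          linarith

theorem Ps_bound (n : ℕ) (hn : Odd n) (u : ℝ) :
    |Ps n u| ≤ Real.exp (-((u - 1) / 3)) := by
  by_cases hsq : Squarefree n
  · unfold Ps LR
    calc |∑ k ∈ Icc 1 ⌊Real.exp u⌋₊, (if rad k = n then gk k else 0) / k * φ (u - Real.log k)|
        ≤ ∑ k ∈ Icc 1 ⌊Real.exp u⌋₊,
          |(if rad k = n then gk k else 0) / k * φ (u - Real.log k)| :=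
          Finset.abs_sum_le_sum_abs _ _
      _ ≤ ∑ k ∈ Icc 1 ⌊Real.exp u⌋₊,
          (if rad k = n then Real.exp (-((u - 1) / 3)) * gh k else 0) := by
          apply Finset.sum_le_sum
          intro k hk
          have hk1 : 1 ≤ k := (Finset.mem_Icc.1 hk).1
          have hkpos : (0 : ℝ) < k := by exact_mod_cast hk1
          split_ifs with h
          · rw [abs_mul, abs_div, abs_of_nonneg (φ_nonneg _), abs_of_pos hkpos]
            by_cases hφ : φ (u - Real.log k) = 0
            · rw [hφ, mul_zero]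
              exact mul_nonneg (Real.exp_pos _).le (gh_nonneg k)
            · have hu : u - Real.log k < 1 := by
                by_contra hc
                exact hφ (φ_big (not_lt.1 hc))
              have h1 : |gk k| / k * φ (u - Real.log k) ≤ 1 / k * 1 := by
                apply mul_le_mul _ (φ_le_one _) (φ_nonneg _) (by positivity)
                exact div_le_div_of_nonneg_right (gk_abs_le k) hkpos.le
              refine h1.trans ?_
              rw [mul_one]
              change 1 / (k : ℝ) ≤ Real.exp (-((u - 1) / 3)) * (k : ℝ) ^ (-(2 / 3) : ℝ)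
              rw [Real.rpow_def_of_pos hkpos, ← Real.exp_add, one_div,
                ← Real.exp_log (inv_pos.2 hkpos), Real.exp_le_exp, Real.log_inv]
              linarith
          · simp
      _ = Real.exp (-((u - 1) / 3)) *
          ∑ k ∈ (Icc 1 ⌊Real.exp u⌋₊).filter (fun k => rad k = n), gh k := by
          rw [← Finset.sum_filter, Finset.mul_sum]
      _ ≤ Real.exp (-((u - 1) / 3)) * 1 :=
          mul_le_mul_of_nonneg_left (sum_gh_le ⟨hn, hsq⟩ _) (Real.exp_pos _).le
      _ = _ := mul_one _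
  · have : Ps n u = 0 := by
      unfold Ps LR
      apply Finset.sum_eq_zero
      intro k _
      have hne : ¬ rad k = n := fun h => hsq (h ▸ rad_squarefree k)
      simp only [hne, if_false, zero_div, zero_mul]
    rw [this, abs_zero]
    exact (Real.exp_pos _).le

/-! ### rearrangement -/

/-- odd squarefree numbers up to `N` -/
def DD (N : ℕ) : Finset ℕ := (Icc 1 N).filter osf

theorem star (v : ℕ → ℕ → ℝ) (u : ℝ) :
    ∑ x ∈ DD ⌊Real.exp u⌋₊, ∑ y ∈ DD ⌊Real.exp u⌋₊, v x y * Ps (x * y) u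
    = ∑ k ∈ Icc 1 ⌊Real.exp u⌋₊, gk k / k * φ (u - Real.log k) *
      ∑ x ∈ (rad k).divisors, v x (rad k / x) := by
  set N := ⌊Real.exp u⌋₊ with hN
  have h1 : ∀ x y : ℕ, v x y * Ps (x * y) u = ∑ k ∈ Icc 1 N,
      gk k / k * φ (u - Real.log k) * (if rad k = x * y then v x y else 0) := by
    intro x y
    unfold Ps LR
    rw [Finset.mul_sum]
    apply Finset.sum_congr rfl
    intro k _
    by_cases h : rad k = x * y
    · simp only [h, if_true]; ring
    · simp only [h, if_false]; ring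
  simp only [h1]
  have h2 : ∀ x ∈ DD N, ∑ y ∈ DD N, ∑ k ∈ Icc 1 N,
      gk k / k * φ (u - Real.log k) * (if rad k = x * y then v x y else 0)
      = ∑ k ∈ Icc 1 N, ∑ y ∈ DD N,
      gk k / k * φ (u - Real.log k) * (if rad k = x * y then v x y else 0) := by
    intro x _
    exact Finset.sum_comm
  rw [Finset.sum_congr rfl h2, Finset.sum_comm]
  apply Finset.sum_congr rfl
  intro k hk
  rw [Finset.mem_Icc] at hk
  by_cases hodd : Odd k
  · simp only [← Finset.mul_sum]
    congr 1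
    have h3 : ∑ x ∈ DD N, ∑ y ∈ DD N, (if rad k = x * y then v x y else 0)
        = ∑ p ∈ (DD N ×ˢ DD N).filter (fun p => rad k = p.1 * p.2), v p.1 p.2 := by
      rw [Finset.sum_filter, Finset.sum_product]
    rw [h3, ← Nat.sum_divisorsAntidiagonal (fun x y => v x y)]
    apply Finset.sum_congr _ (fun _ _ => rfl)
    ext ⟨x, y⟩
    rw [Finset.mem_filter, Finset.mem_product, Nat.mem_divisorsAntidiagonal]
    simp only [DD, Finset.mem_filter, Finset.mem_Icc]
    constructor
    · rintro ⟨_, h⟩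
      exact ⟨h.symm, rad_ne_zero k⟩
    · rintro ⟨h, _⟩
      have hr := osf_rad hodd
      have hle : rad k ≤ N := (rad_le hk.1).trans hk.2
      have hx0 : x ≠ 0 := fun h0 => rad_ne_zero k (by rw [← h, h0, zero_mul])
      have hy0 : y ≠ 0 := fun h0 => rad_ne_zero k (by rw [← h, h0, mul_zero])
      rw [← h] at hr hle
      have hxo := Nat.odd_mul.1 hr.1
      refine ⟨⟨⟨⟨by omega, ?_⟩, hxo.1, hr.2.of_mul_left⟩, ⟨by omega, ?_⟩, hxo.2,
        hr.2.of_mul_right⟩, h.symm⟩
      · exact (Nat.le_mul_of_pos_right x (by omega)).trans hle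
      · exact (Nat.le_mul_of_pos_left y (by omega)).trans hle
  · rw [gk_even hodd]
    simp

/-- the symbol of a pair -/
def TT (e f : ℤ) (x y : ℕ) : ℝ := J e x * J f y * J x y

theorem TT_abs_le (e f : ℤ) (x y : ℕ) : |TT e f x y| ≤ 1 := by
  unfold TT
  rw [abs_mul, abs_mul]
  exact mul_le_one₀ (mul_le_one₀ (J_abs_le _ _) (abs_nonneg _) (J_abs_le _ _)) (abs_nonneg _)
    (J_abs_le _ _)

theorem tt_eq (e f : ℤ) {u : ℝ} (hu : 1 ≤ u) :
    tt e f u = ∑ k ∈ Icc 1 ⌊Real.exp u⌋₊, gk k / k * φ (u - Real.log k) *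
      ∑ x ∈ (rad k).divisors, (if ¬ (x = 1 ∧ f = 1) ∧ ¬ (rad k / x = 1 ∧ e = 1) then
        TT e f x (rad k / x) else 0) := by
  unfold tt LR
  apply Finset.sum_congr rfl
  intro k _
  unfold we
  by_cases hk : k = 1
  · subst hk
    rw [Nat.cast_one, Real.log_one, sub_zero, φ_big hu]
    simp
  · rw [if_neg hk, sub_zero]
    unfold cc TT
    rw [Finset.sum_filter]
    ring

theorem S1_eq (e f : ℤ) (u : ℝ) (z : ℕ) :
    ∑ x ∈ (Icc 1 z).filter (fun x => osf x ∧ ¬ (x = 1 ∧ f = 1)), J e x * ta x (f * x) u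
    = ∑ k ∈ Icc 1 ⌊Real.exp u⌋₊, gk k / k * φ (u - Real.log k) *
      ∑ x ∈ (rad k).divisors, (if x ≤ z ∧ ¬ (x = 1 ∧ f = 1) then
        TT e f x (rad k / x) else 0) := by
  have h1 : ∀ x ∈ (Icc 1 z).filter (fun x => osf x ∧ ¬ (x = 1 ∧ f = 1)),
      J e x * ta x (f * x) u = ∑ k ∈ Icc 1 ⌊Real.exp u⌋₊, gk k / k * φ (u - Real.log k) *
        (if x ∣ rad k then TT e f x (rad k / x) else 0) := by
    intro x hx
    rw [Finset.mem_filter] at hx
    unfold ta LR
    rw [Finset.mul_sum]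
    apply Finset.sum_congr rfl
    intro k hk
    rw [taC_eq hx.2.1.2 (Dvd.intro_left f rfl) (Finset.mem_Icc.1 hk).1]
    split_ifs with h
    · unfold TT
      rw [J_mul_left]
      ring
    · ring
  rw [Finset.sum_congr rfl h1, Finset.sum_comm]
  apply Finset.sum_congr rfl
  intro k hk
  rw [Finset.mem_Icc] at hk
  by_cases hodd : Odd k
  · rw [← Finset.mul_sum]
    congr 1
    rw [← Finset.sum_filter, ← Finset.sum_filter]
    apply Finset.sum_congr _ (fun _ _ => rfl)
    ext x
    simp only [Finset.mem_filter, Finset.mem_Icc, Nat.mem_divisors]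
    constructor
    · rintro ⟨⟨⟨h1, h2⟩, h3, h4⟩, h5⟩
      exact ⟨⟨h5, rad_ne_zero k⟩, h2, h4⟩
    · rintro ⟨⟨h5, _⟩, h2, h4⟩
      have hx0 : x ≠ 0 := fun h0 => rad_ne_zero k (Nat.eq_zero_of_zero_dvd (h0 ▸ h5))
      exact ⟨⟨⟨by omega, h2⟩, ⟨Odd.of_dvd_nat (odd_rad hodd) h5,
        (rad_squarefree k).squarefree_of_dvd h5⟩, h4⟩, h5⟩
  · rw [gk_even hodd]
    simp

theorem recip (e : ℤ) {x y : ℕ} (hx : Odd x) (hy : Odd y) :
    J (e * jacobiSym (-1) y * y) x = J e x * J x y := by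
  rw [J_mul_left, J_mul_left]
  unfold J
  rw [jacobiSym.quadratic_reciprocity' hx hy]
  unfold qrSign
  rw [jacobiSym.at_neg_one hy]
  push_cast
  ring

theorem S2_eq (e f : ℤ) (u : ℝ) (z : ℕ) :
    ∑ y ∈ (Icc 1 z).filter (fun y => osf y ∧ ¬ (y = 1 ∧ e = 1)),
      J f y * ta y (e * jacobiSym (-1) y * y) u
    = ∑ k ∈ Icc 1 ⌊Real.exp u⌋₊, gk k / k * φ (u - Real.log k) *
      ∑ x ∈ (rad k).divisors, (if rad k / x ≤ z ∧ ¬ (rad k / x = 1 ∧ e = 1) then
        TT e f x (rad k / x) else 0) := by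
  have h1 : ∀ y ∈ (Icc 1 z).filter (fun y => osf y ∧ ¬ (y = 1 ∧ e = 1)),
      J f y * ta y (e * jacobiSym (-1) y * y) u
      = ∑ k ∈ Icc 1 ⌊Real.exp u⌋₊, gk k / k * φ (u - Real.log k) *
        (if y ∣ rad k then TT e f (rad k / y) y else 0) := by
    intro y hy
    rw [Finset.mem_filter] at hy
    unfold ta LR
    rw [Finset.mul_sum]
    apply Finset.sum_congr rfl
    intro k hk
    rw [taC_eq hy.2.1.2 (Dvd.intro_left _ rfl) (Finset.mem_Icc.1 hk).1]
    split_ifs with h
    · by_cases hodd : Odd k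
      · have hxo : Odd (rad k / y) :=
          Odd.of_dvd_nat (odd_rad hodd) (Nat.div_dvd_of_dvd h)
        rw [recip e hxo hy.2.1.1]
        unfold TT
        ring
      · rw [gk_even hodd]; simp
    · ring
  rw [Finset.sum_congr rfl h1, Finset.sum_comm]
  apply Finset.sum_congr rfl
  intro k hk
  rw [Finset.mem_Icc] at hk
  by_cases hodd : Odd k
  · rw [← Finset.mul_sum]
    congr 1
    have h2 : ∑ x ∈ (rad k).divisors, (if rad k / x ≤ z ∧ ¬ (rad k / x = 1 ∧ e = 1) then
        TT e f x (rad k / x) else 0)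
        = ∑ y ∈ (rad k).divisors, (if y ≤ z ∧ ¬ (y = 1 ∧ e = 1) then
        TT e f (rad k / y) y else 0) := by
      rw [← Nat.sum_div_divisors (rad k) (fun y => if y ≤ z ∧ ¬ (y = 1 ∧ e = 1) then
        TT e f (rad k / y) y else 0)]
      apply Finset.sum_congr rfl
      intro x hx
      rw [Nat.mem_divisors] at hx
      simp only [Nat.div_div_self hx.1 hx.2]
    rw [h2, ← Finset.sum_filter, ← Finset.sum_filter]
    apply Finset.sum_congr _ (fun _ _ => rfl)
    ext y
    simp only [Finset.mem_filter, Finset.mem_Icc, Nat.mem_divisors]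
    constructor
    · rintro ⟨⟨⟨h1, h2⟩, h3, h4⟩, h5⟩
      exact ⟨⟨h5, rad_ne_zero k⟩, h2, h4⟩
    · rintro ⟨⟨h5, _⟩, h2, h4⟩
      have hx0 : y ≠ 0 := fun h0 => rad_ne_zero k (Nat.eq_zero_of_zero_dvd (h0 ▸ h5))
      exact ⟨⟨⟨by omega, h2⟩, ⟨Odd.of_dvd_nat (odd_rad hodd) h5,
        (rad_squarefree k).squarefree_of_dvd h5⟩, h4⟩, h5⟩
  · rw [gk_even hodd]
    simp

/-- the remaining coefficient -/
def VV (e f : ℤ) (z x y : ℕ) : ℝ :=
  (if ¬ (x = 1 ∧ f = 1) ∧ ¬ (y = 1 ∧ e = 1) then TT e f x y else 0)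
  - (if x ≤ z ∧ ¬ (x = 1 ∧ f = 1) then TT e f x y else 0)
  - (if y ≤ z ∧ ¬ (y = 1 ∧ e = 1) then TT e f x y else 0)

theorem VV_aux (P Q : Prop) [Decidable P] [Decidable Q] (T : ℝ) (hT : |T| ≤ 1) :
    |(if ¬ P ∧ ¬ Q then T else 0) - (if ¬ P then T else 0) - (if ¬ Q then T else 0)| ≤ 1 := by
  by_cases hP : P <;> by_cases hQ : Q <;> simp [hP, hQ, hT]

theorem VV_split (e f : ℤ) {z x y : ℕ} (hz : 1 ≤ z) :
    |VV e f z x y - (if z < x ∧ z < y then TT e f x y else 0)|
      ≤ if x ≤ z ∧ y ≤ z then 1 else 0 := by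
  have hT := TT_abs_le e f x y
  unfold VV
  by_cases hx : x ≤ z
  · by_cases hy : y ≤ z
    · have h1 : ¬ (z < x ∧ z < y) := fun h => absurd h.1 (by omega)
      have e1 : (if z < x ∧ z < y then TT e f x y else 0) = 0 := if_neg h1
      have e2 : (if x ≤ z ∧ y ≤ z then (1 : ℝ) else 0) = 1 := if_pos ⟨hx, hy⟩
      rw [e1, e2, sub_zero]
      simp only [hx, hy, true_and]
      exact VV_aux (x = 1 ∧ f = 1) (y = 1 ∧ e = 1) (TT e f x y) hT
    · have h1 : ¬ (z < x ∧ z < y) := fun h => absurd h.1 (by omega)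
      have hQ : ¬ (y = 1 ∧ e = 1) := fun h => hy (by omega)
      simp only [h1, hQ, hy, hx, and_false, false_and, if_false, not_false_eq_true, and_true,
        true_and, sub_zero, sub_self, abs_zero, le_refl]
  · by_cases hy : y ≤ z
    · have h1 : ¬ (z < x ∧ z < y) := fun h => absurd h.2 (by omega)
      have hP : ¬ (x = 1 ∧ f = 1) := fun h => hx (by omega)
      simp only [h1, hP, hy, hx, and_false, false_and, if_false, not_false_eq_true, and_true,
        true_and, sub_zero, sub_self, abs_zero, le_refl]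
    · have h1 : (z < x ∧ z < y) := ⟨by omega, by omega⟩
      have hP : ¬ (x = 1 ∧ f = 1) := fun h => hx (by omega)
      have hQ : ¬ (y = 1 ∧ e = 1) := fun h => hy (by omega)
      simp only [h1, hP, hQ, hy, hx, false_and, if_false, not_false_eq_true, and_true,
        if_true, sub_zero, sub_self, abs_zero, le_refl]

theorem t_GRP : S_GB → S_GRP := by
  rintro ⟨C, K, hC, hGB⟩
  refine ⟨C + 2, K, by positivity, ?_⟩
  intro u z e f hu hz hzu he hf
  set N := ⌊Real.exp u⌋₊ with hN
  have hzpos : (0 : ℝ) < z := by exact_mod_cast hz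
  have hcomb : tt e f u - ∑ x ∈ (Icc 1 z).filter (fun x => osf x ∧ ¬ (x = 1 ∧ f = 1)),
        J e x * ta x (f * x) u -
      ∑ y ∈ (Icc 1 z).filter (fun y => osf y ∧ ¬ (y = 1 ∧ e = 1)),
        J f y * ta y (e * jacobiSym (-1) y * y) u
      = ∑ x ∈ DD N, ∑ y ∈ DD N, VV e f z x y * Ps (x * y) u := by
    rw [tt_eq e f hu, S1_eq, S2_eq, star (VV e f z) u, ← Finset.sum_sub_distrib,
      ← Finset.sum_sub_distrib]
    apply Finset.sum_congr rfl
    intro k _
    rw [← mul_sub, ← mul_sub, ← Finset.sum_sub_distrib, ← Finset.sum_sub_distrib]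
    rfl
  rw [hcomb]
  -- the large part
  have hlarge : ∑ x ∈ DD N, ∑ y ∈ DD N,
      (if z < x ∧ z < y then TT e f x y else 0) * Ps (x * y) u
      = ∑ x ∈ (Ioc z N).filter osf, ∑ y ∈ (Ioc z N).filter osf,
      J e x * J f y * J x y * Ps (x * y) u := by
    have hset : (Ioc z N).filter osf = (DD N).filter (fun x => z < x) := by
      ext x
      simp only [DD, Finset.mem_filter, Finset.mem_Ioc, Finset.mem_Icc]
      constructor
      · rintro ⟨⟨h1, h2⟩, h3⟩; exact ⟨⟨⟨by omega, h2⟩, h3⟩, h1⟩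
      · rintro ⟨⟨⟨_, h2⟩, h3⟩, h1⟩; exact ⟨⟨h1, h2⟩, h3⟩
    rw [hset, Finset.sum_filter]
    apply Finset.sum_congr rfl
    intro x _
    by_cases hx : z < x
    · rw [if_pos hx, Finset.sum_filter]
      apply Finset.sum_congr rfl
      intro y _
      by_cases hy : z < y
      · rw [if_pos hy, if_pos ⟨hx, hy⟩]; rfl
      · rw [if_neg hy, if_neg (fun h => hy h.2), zero_mul]
    · rw [if_neg hx]
      apply Finset.sum_eq_zero
      intro y _
      rw [if_neg (fun h => hx h.1), zero_mul]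
  have hG := hGB u z e f hu hz he hf
  rw [← hN, ← hlarge] at hG
  -- the difference
  have hdiff : |∑ x ∈ DD N, ∑ y ∈ DD N, VV e f z x y * Ps (x * y) u
      - ∑ x ∈ DD N, ∑ y ∈ DD N, (if z < x ∧ z < y then TT e f x y else 0) * Ps (x * y) u|
      ≤ (z : ℝ) * (z * Real.exp (-((u - 1) / 3))) := by
    rw [← Finset.sum_sub_distrib]
    calc |∑ x ∈ DD N, (∑ y ∈ DD N, VV e f z x y * Ps (x * y) u
          - ∑ y ∈ DD N, (if z < x ∧ z < y then TT e f x y else 0) * Ps (x * y) u)|
        ≤ ∑ x ∈ DD N, |∑ y ∈ DD N, VV e f z x y * Ps (x * y) u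
          - ∑ y ∈ DD N, (if z < x ∧ z < y then TT e f x y else 0) * Ps (x * y) u| :=
          Finset.abs_sum_le_sum_abs _ _
      _ ≤ ∑ x ∈ DD N, ∑ y ∈ DD N,
          (if x ≤ z ∧ y ≤ z then Real.exp (-((u - 1) / 3)) else 0) := by
          apply Finset.sum_le_sum
          intro x hx
          rw [← Finset.sum_sub_distrib]
          refine (Finset.abs_sum_le_sum_abs _ _).trans ?_
          apply Finset.sum_le_sum
          intro y hy
          rw [← sub_mul, abs_mul]
          have h1 := VV_split e f (z := z) (x := x) (y := y) hz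
          have hxo : Odd x := (Finset.mem_filter.1 hx).2.1
          have hyo : Odd y := (Finset.mem_filter.1 hy).2.1
          have h2 := Ps_bound (x * y) (hxo.mul hyo) u
          by_cases h : x ≤ z ∧ y ≤ z
          · rw [if_pos h] at h1 ⊢
            calc _ ≤ 1 * Real.exp (-((u - 1) / 3)) :=
                  mul_le_mul h1 h2 (abs_nonneg _) zero_le_one
              _ = _ := one_mul _
          · rw [if_neg h] at h1 ⊢
            have h3 := le_antisymm h1 (abs_nonneg _)
            rw [h3, zero_mul]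
      _ ≤ ∑ x ∈ Icc 1 z, ∑ y ∈ Icc 1 z, Real.exp (-((u - 1) / 3)) := by
          have h4 : ∀ x ∈ DD N, ∑ y ∈ DD N,
              (if x ≤ z ∧ y ≤ z then Real.exp (-((u - 1) / 3)) else 0)
              ≤ if x ≤ z then ∑ y ∈ Icc 1 z, Real.exp (-((u - 1) / 3)) else 0 := by
            intro x _
            split_ifs with hx
            · simp only [hx, true_and]
              rw [← Finset.sum_filter]
              apply Finset.sum_le_sum_of_subset_of_nonneg
              · intro y hy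
                simp only [DD, Finset.mem_filter, Finset.mem_Icc] at hy ⊢
                exact ⟨hy.1.1.1, hy.2⟩
              · intro _ _ _; exact (Real.exp_pos _).le
            · simp only [hx, false_and, if_false, Finset.sum_const_zero, le_refl]
          refine (Finset.sum_le_sum h4).trans ?_
          rw [← Finset.sum_filter]
          apply Finset.sum_le_sum_of_subset_of_nonneg
          · intro y hy
            simp only [DD, Finset.mem_filter, Finset.mem_Icc] at hy ⊢
            exact ⟨hy.1.1.1, hy.2⟩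
          · intro _ _ _; exact Finset.sum_nonneg fun _ _ => (Real.exp_pos _).le
      _ = _ := by
          rw [Finset.sum_const, Finset.sum_const, Nat.card_Icc]
          simp only [Nat.add_sub_cancel, nsmul_eq_mul]
  -- the numerical bound
  have hnum : (z : ℝ) * (z * Real.exp (-((u - 1) / 3))) ≤ 2 * (z : ℝ) ^ (-(1 / 8) : ℝ) := by
    have hlz : Real.log z ≤ u / 8 := by
      rw [Real.log_le_iff_le_exp hzpos]; exact hzu
    have hlz0 : 0 ≤ Real.log z := Real.log_nonneg (by exact_mod_cast hz)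
    have h1 : (z : ℝ) * (z * Real.exp (-((u - 1) / 3)))
        = Real.exp (2 * Real.log z - (u - 1) / 3) := by
      conv_lhs => rw [← Real.exp_log hzpos]
      rw [← Real.exp_add, ← Real.exp_add]
      congr 1; ring
    have h2 : (z : ℝ) ^ (-(1 / 8) : ℝ) = Real.exp (Real.log z * (-(1 / 8))) :=
      Real.rpow_def_of_pos hzpos _
    have h3 : (2 : ℝ) = Real.exp (Real.log 2) := (Real.exp_log (by norm_num)).symm
    rw [h1, h2]
    conv_rhs => rw [h3]
    rw [← Real.exp_add, Real.exp_le_exp]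
    have h4 : (0.69 : ℝ) < Real.log 2 := by linarith [Real.log_two_gt_d9]
    linarith
  have hK : (1 : ℝ) ≤ (1 + u) ^ K := one_le_pow₀ (by linarith)
  have hz8 : 0 ≤ (z : ℝ) ^ (-(1 / 8) : ℝ) := Real.rpow_nonneg hzpos.le _
  calc |∑ x ∈ DD N, ∑ y ∈ DD N, VV e f z x y * Ps (x * y) u|
      ≤ |∑ x ∈ DD N, ∑ y ∈ DD N, (if z < x ∧ z < y then TT e f x y else 0) * Ps (x * y) u|
        + |∑ x ∈ DD N, ∑ y ∈ DD N, VV e f z x y * Ps (x * y) u
      - ∑ x ∈ DD N, ∑ y ∈ DD N, (if z < x ∧ z < y then TT e f x y else 0) * Ps (x * y) u| := by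
        have := abs_add_le (∑ x ∈ DD N, ∑ y ∈ DD N,
          (if z < x ∧ z < y then TT e f x y else 0) * Ps (x * y) u)
          (∑ x ∈ DD N, ∑ y ∈ DD N, VV e f z x y * Ps (x * y) u
      - ∑ x ∈ DD N, ∑ y ∈ DD N, (if z < x ∧ z < y then TT e f x y else 0) * Ps (x * y) u)
        rwa [add_sub_cancel] at this
    _ ≤ C * (1 + u) ^ K * (z : ℝ) ^ (-(1 / 8) : ℝ) + 2 * (z : ℝ) ^ (-(1 / 8) : ℝ) :=
        add_le_add hG (hdiff.trans hnum)
    _ ≤ (C + 2) * (1 + u) ^ K * (z : ℝ) ^ (-(1 / 8) : ℝ) := by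
        have : 2 * (z : ℝ) ^ (-(1 / 8) : ℝ) ≤ 2 * (1 + u) ^ K * (z : ℝ) ^ (-(1 / 8) : ℝ) := by
          apply mul_le_mul_of_nonneg_right _ hz8
          linarith
        nlinarith [this]

end

end Pool.Agent.Y585.FK
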