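import Pool.Agent.Y755.FK.Stm

set_option autoImplicit false

open Finset MeasureTheory Filter

open scoped Classical

namespace Pool.Agent.Y585.FK

open Pool.Agent.Y755.FK

noncomputable section

theorem rad_ne_zero (k : ℕ) : rad k ≠ 0 :=
  Finset.prod_ne_zero_iff.2 fun p hp => (Nat.prime_of_mem_primeFactors hp).ne_zero

theorem rad_dvd (k : ℕ) : rad k ∣ k := Nat.prod_primeFactors_dvd k

theorem primeFactors_rad (k : ℕ) : (rad k).primeFactors = k.primeFactors :=
  Nat.primeFactors_prod_primeFactors k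

theorem rad_of_squarefree {n : ℕ} (h : Squarefree n) : rad n = n :=
  Nat.prod_primeFactors_of_squarefree h

theorem squarefree_prod_primes (s : Finset ℕ) (hs : ∀ p ∈ s, p.Prime) :
    Squarefree (∏ p ∈ s, p) := by
  induction s using Finset.induction_on with
  | empty => simp
  | insert a s ha ih =>
    rw [Finset.prod_insert ha]
    have hap : a.Prime := hs a (Finset.mem_insert_self a s)
    have hcop : Nat.Coprime a (∏ p ∈ s, p) := by
      apply Nat.Coprime.prod_right
      intro p hp
      have hpp : p.Prime := hs p (Finset.mem_insert_of_mem hp)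
      rw [Nat.coprime_primes hap hpp]
      rintro rfl
      exact ha hp
    rw [Nat.squarefree_mul hcop]
    exact ⟨hap.prime.squarefree, ih (fun p hp => hs p (Finset.mem_insert_of_mem hp))⟩

theorem rad_squarefree (k : ℕ) : Squarefree (rad k) :=
  squarefree_prod_primes _ (fun _ hp => Nat.prime_of_mem_primeFactors hp)

theorem rad_le {k : ℕ} (hk : 1 ≤ k) : rad k ≤ k := Nat.le_of_dvd (by omega) (rad_dvd k)

theorem odd_rad {k : ℕ} (hk : Odd k) : Odd (rad k) := Odd.of_dvd_nat hk (rad_dvd k)

theorem osf_rad {k : ℕ} (hk : Odd k) : osf (rad k) := ⟨odd_rad hk, rad_squarefree k⟩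

theorem om_rad (k : ℕ) : om (rad k) = om k := by unfold om; rw [primeFactors_rad]

theorem rad_mul {a b : ℕ} (h : Nat.Coprime a b) : rad (a * b) = rad a * rad b := by
  unfold rad
  rw [h.primeFactors_mul, Finset.prod_union h.disjoint_primeFactors]

theorem om_mul {a b : ℕ} (h : Nat.Coprime a b) : om (a * b) = om a + om b := by
  unfold om
  rw [h.primeFactors_mul, Finset.card_union_of_disjoint h.disjoint_primeFactors]

theorem om_le_length (k : ℕ) : om k ≤ k.primeFactorsList.length := by
  unfold om Nat.primeFactors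
  exact List.toFinset_card_le _

theorem gk_abs_le (k : ℕ) : |gk k| ≤ 1 := by
  unfold gk
  split_ifs with h
  · rw [abs_mul, abs_pow, abs_pow]
    have h1 : |(1 / 2 : ℝ)| = 1 / 2 := by norm_num
    have h2 : |(-1 / 2 : ℝ)| = 1 / 2 := by norm_num [abs_of_neg]
    rw [h1, h2]
    exact mul_le_one₀ (pow_le_one₀ (by norm_num) (by norm_num)) (by positivity)
      (pow_le_one₀ (by norm_num) (by norm_num))
  · simp

theorem gk_even {k : ℕ} (h : ¬ Odd k) : gk k = 0 := by
  unfold gk; rw [if_neg h]

theorem gk_mul {a b : ℕ} (h : Nat.Coprime a b) (ha : a ≠ 0) (hb : b ≠ 0) :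
    gk (a * b) = gk a * gk b := by
  unfold gk
  by_cases h1 : Odd a
  · by_cases h2 : Odd b
    · rw [if_pos (h1.mul h2), if_pos h1, if_pos h2, om_mul h]
      have hl : (a * b).primeFactorsList.length
          = a.primeFactorsList.length + b.primeFactorsList.length := by
        rw [(Nat.perm_primeFactorsList_mul ha hb).length_eq, List.length_append]
      have h3 := om_le_length a
      have h4 := om_le_length b
      rw [hl, show a.primeFactorsList.length + b.primeFactorsList.length - (om a + om b)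
        = (a.primeFactorsList.length - om a) + (b.primeFactorsList.length - om b) by omega,
        pow_add, pow_add]
      ring
    · rw [if_neg (fun h' => h2 (Nat.odd_mul.1 h').2), if_neg h2, mul_zero]
  · rw [if_neg (fun h' => h1 (Nat.odd_mul.1 h').1), if_neg h1, zero_mul]

theorem J_mul_left (a b : ℤ) (n : ℕ) : J (a * b) n = J a n * J b n := by
  unfold J; rw [jacobiSym.mul_left]; push_cast; ring

theorem J_abs_le (a : ℤ) (n : ℕ) : |J a n| ≤ 1 := by
  unfold J
  rcases jacobiSym.trichotomy a n with h | h | h <;> rw [h] <;> simp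

theorem J_eq_zero {D : ℤ} {n p : ℕ} (hn : n ≠ 0) (hp : p.Prime) (h1 : (p : ℤ) ∣ D) (h2 : p ∣ n) :
    J D n = 0 := by
  haveI : NeZero n := ⟨hn⟩
  have : jacobiSym D n = 0 := by
    rw [jacobiSym.eq_zero_iff_not_coprime]
    intro hg
    have h3 : p ∣ D.gcd n := by
      rw [Int.dvd_gcd_iff] 
      exact ⟨h1, by exact_mod_cast h2⟩
    rw [hg] at h3
    exact hp.one_lt.ne' (Nat.dvd_one.1 h3)
  unfold J; rw [this]; simp

/-- primes of a product of powers -/
theorem primeFactors_prod_pow (s : Finset ℕ) (hs : ∀ p ∈ s, p.Prime) (e : ℕ → ℕ)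
    (he : ∀ p ∈ s, e p ≠ 0) : (∏ p ∈ s, p ^ e p).primeFactors = s := by
  have hne : ∏ p ∈ s, p ^ e p ≠ 0 :=
    Finset.prod_ne_zero_iff.2 fun p hp => pow_ne_zero _ (hs p hp).ne_zero
  ext q
  rw [Nat.mem_primeFactors_of_ne_zero hne]
  constructor
  · rintro ⟨hq, hd⟩
    rw [hq.prime.dvd_finsetProd_iff] at hd
    obtain ⟨p, hp, hqp⟩ := hd
    have := hq.dvd_of_dvd_pow hqp
    rw [(Nat.prime_dvd_prime_iff_eq hq (hs p hp)).1 this]
    exact hp
  · intro hq
    exact ⟨hs q hq, (dvd_pow_self q (he q hq)).trans (Finset.dvd_prod_of_mem _ hq)⟩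

/-- The factorization `k = a b` with `rad a = x`, `(a, b) = 1`. -/
theorem exists_part {k x : ℕ} (hk : k ≠ 0) (hx : Squarefree x) (hxk : x ∣ rad k) :
    ∃ a b : ℕ, k = a * b ∧ Nat.Coprime a b ∧ rad a = x ∧ rad k = x * rad b := by
  have hsub : x.primeFactors ⊆ k.primeFactors := by
    rw [← primeFactors_rad k]
    exact Nat.primeFactors_mono hxk (rad_ne_zero k)
  set a := ∏ p ∈ x.primeFactors, p ^ k.factorization p with ha
  set b := ∏ p ∈ k.primeFactors \ x.primeFactors, p ^ k.factorization p with hb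
  have he : ∀ p ∈ k.primeFactors, k.factorization p ≠ 0 := by
    intro p hp
    rw [← Finsupp.mem_support_iff]
    exact hp
  have hab : k = a * b := by
    conv_lhs => rw [← Nat.prod_factorization_pow_eq_self hk]
    rw [ha, hb, mul_comm, Finset.prod_sdiff hsub]
    rfl
  have hpa : a.primeFactors = x.primeFactors :=
    primeFactors_prod_pow _ (fun p hp => Nat.prime_of_mem_primeFactors hp) _
      (fun p hp => he p (hsub hp))
  have hpb : b.primeFactors = k.primeFactors \ x.primeFactors :=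
    primeFactors_prod_pow _ (fun p hp => Nat.prime_of_mem_primeFactors
      (Finset.mem_sdiff.1 hp).1) _ (fun p hp => he p (Finset.mem_sdiff.1 hp).1)
  have ha0 : a ≠ 0 := fun h => hk (by rw [hab, h, zero_mul])
  have hb0 : b ≠ 0 := fun h => hk (by rw [hab, h, mul_zero])
  have hcop : Nat.Coprime a b := by
    rw [← Nat.disjoint_primeFactors ha0 hb0, hpa, hpb]
    exact Finset.disjoint_sdiff
  have hra : rad a = x := by
    unfold rad; rw [hpa]; exact rad_of_squarefree hx
  refine ⟨a, b, hab, hcop, hra, ?_⟩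
  conv_lhs => rw [hab]
  rw [rad_mul hcop, hra]

/-- uniqueness -/
theorem part_unique {a b a' b' : ℕ} (h : a * b = a' * b') (hab : Nat.Coprime a b)
    (hab' : Nat.Coprime a' b') (hr : rad a = rad a') (ha : a ≠ 0) (ha' : a' ≠ 0)
    (hb : b ≠ 0) (hb' : b' ≠ 0) : a = a' := by
  have hp : a.primeFactors = a'.primeFactors := by
    rw [← primeFactors_rad a, hr, primeFactors_rad a']
  have h1 : Nat.Coprime a b' := by
    rw [← Nat.disjoint_primeFactors ha hb', hp, Nat.disjoint_primeFactors ha' hb']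
    exact hab'
  have h2 : Nat.Coprime a' b := by
    rw [← Nat.disjoint_primeFactors ha' hb, ← hp, Nat.disjoint_primeFactors ha hb]
    exact hab
  apply Nat.dvd_antisymm
  · exact h1.dvd_of_dvd_mul_right (h ▸ Dvd.intro b rfl)
  · exact h2.dvd_of_dvd_mul_right (h ▸ Dvd.intro b' rfl)

theorem taC_eq {x k : ℕ} {D : ℤ} (hx : Squarefree x) (hD : (x : ℤ) ∣ D) (hk : 1 ≤ k) :
    taC x D k = if x ∣ rad k then gk k * J D (rad k / x) else 0 := by
  have hk0 : k ≠ 0 := by omega
  unfold taC
  split_ifs with h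
  · obtain ⟨a, b, hab, hcop, hra, hrb⟩ := exists_part hk0 hx h
    have ha0 : a ≠ 0 := fun h => hk0 (by rw [hab, h, zero_mul])
    have hb0 : b ≠ 0 := fun h => hk0 (by rw [hab, h, mul_zero])
    have hkb : k / a = b := by rw [hab]; exact Nat.mul_div_cancel_left b (Nat.pos_of_ne_zero ha0)
    rw [Finset.sum_eq_single_of_mem a]
    · rw [hkb, ← gk_mul hcop ha0 hb0, ← hab]
      congr 2
      rw [hrb, Nat.mul_div_cancel_left _ (Nat.pos_of_ne_zero hx.ne_zero)]
    · rw [Finset.mem_filter, Nat.mem_divisors]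
      exact ⟨⟨⟨b, hab⟩, hk0⟩, hra⟩
    · intro a' ha' hne
      rw [Finset.mem_filter, Nat.mem_divisors] at ha'
      obtain ⟨⟨⟨b', hb'⟩, _⟩, hra'⟩ := ha'
      have ha'0 : a' ≠ 0 := fun h => hk0 (by rw [hb', h, zero_mul])
      have hb'0 : b' ≠ 0 := fun h => hk0 (by rw [hb', h, mul_zero])
      have hkb' : k / a' = b' := by
        rw [hb']; exact Nat.mul_div_cancel_left b' (Nat.pos_of_ne_zero ha'0)
      rw [hkb']
      have hnc : ¬ Nat.Coprime a' b' := by
        intro hc
        exact hne (part_unique (hb'.symm.trans hab) hc hcop (hra'.trans hra.symm) ha'0 ha0 hb'0 hb0)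
      rw [Nat.Prime.not_coprime_iff_dvd] at hnc
      obtain ⟨p, hp, hpa, hpb⟩ := hnc
      have hpx : p ∣ x := by
        rw [← hra']
        exact Finset.dvd_prod_of_mem _ (Nat.mem_primeFactors.2 ⟨hp, hpa, ha'0⟩)
      have hpr : p ∣ rad b' :=
        Finset.dvd_prod_of_mem _ (Nat.mem_primeFactors.2 ⟨hp, hpb, hb'0⟩)
      rw [J_eq_zero (rad_ne_zero b') hp ((Int.natCast_dvd_natCast.2 hpx).trans hD) hpr, mul_zero]
  · apply Finset.sum_eq_zero
    intro a ha
    rw [Finset.mem_filter, Nat.mem_divisors] at ha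
    exfalso
    apply h
    rw [← ha.2]
    exact Finset.prod_dvd_prod_of_subset _ _ _ (Nat.primeFactors_mono ha.1.1 hk0)

end

end Pool.Agent.Y585.FK
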